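import Pool.Agent.R957.Jel.Main

/-!
# Jellium with a short range pair potential: the free energy is continuous in the density

`phi`, `U`, `energy`, `Z`, `ballOfVol`, `gfin`, `g` and the class `Admissible` are defined in
`Pool.Agent.R957.Jel.Defs`; `ballOfVol t` is the ball centred at `0` of volume `t`, and
`gfin v β ρ j = |Λ_j|⁻¹ ln Z(β, ρ; Λ_j)`.
-/

open Filter Topology Set

namespace Pool.Agent.Results.MP_6fcc74_mp.DensityContinuity

open Pool.Agent.R957.Jel

/-- For every admissible `v` and every `β > 0` the function `ρ ↦ g(β, ρ)` is continuous on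
`(0, ∞)`; it is even Lipschitz on every interval `[a, b] ⊂ (0, ∞)`.  The first part recalls that
`g` is the limit of `gfin`. -/
theorem result (v : E3 → ℝ) (hv : Admissible v) (beta : ℝ) (hbeta : 0 < beta) :
    (∀ rho > 0, Tendsto (gfin v beta rho) atTop (𝓝 (g v beta rho))) ∧
    ContinuousOn (fun rho => g v beta rho) (Ioi 0) ∧
    ∀ a b : ℝ, 0 < a → a ≤ b → ∃ A : ℝ, 0 ≤ A ∧ ∀ r1 ∈ Icc a b, ∀ r2 ∈ Icc a b,
      |g v beta r1 - g v beta r2| ≤ A * |r1 - r2| := by
  refine ⟨fun rho hr => ?_, continuousOn_g hv hbeta, fun a b ha hab => g_lip hv hbeta ha hab⟩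
  obtain ⟨G, hG⟩ := hv.limit beta hbeta rho hr
  exact tendsto_nhds_limUnder ⟨G, hG⟩

end Pool.Agent.Results.MP_6fcc74_mp.DensityContinuity
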